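import Pool.Agent.H547.C9.Stm3

set_option autoImplicit false

/-!
# Assembly of the sixth congruence of MP_c9f782 (project C9 of helper547)
-/

namespace Pool.Agent.H415.C9F6

open Finset Pool.Agent.H547.P3 Pool.Agent.H547.P4 Pool.Agent.H547.C9 Pool.Agent.R439.PL

/-! ### transfer modulo `p²` -/

/-- `ξ` represents the rational number `x` modulo `p²` -/
def R2 (p : ℕ) (x : ℚ) (ξ : ZMod (p ^ 2)) : Prop := ∃ N D : ℤ, ¬ (p : ℤ) ∣ D ∧ x * D = N ∧ (N : ZMod (p ^ 2)) = D * ξ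

section

variable {p : ℕ} [hp : Fact p.Prime]

theorem R2.int (a : ℤ) : R2 p a a := ⟨a, 1, by
  rw [← Int.natCast_one, Int.natCast_dvd_natCast, Nat.dvd_one]; exact hp.out.one_lt.ne', by push_cast; ring, by push_cast; ring⟩

theorem R2.nat (a : ℕ) : R2 p a a := by simpa using R2.int (p := p) (a : ℤ)

theorem R2.add {x y : ℚ} {ξ η : ZMod (p ^ 2)} (hx : R2 p x ξ) (hy : R2 p y η) : R2 p (x + y) (ξ + η) := by
  obtain ⟨N, D, h1, h2, h3⟩ := hx
  obtain ⟨N', D', h1', h2', h3'⟩ := hy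
  refine ⟨N * D' + N' * D, D * D', ?_, ?_, ?_⟩
  · intro h; rcases (Nat.prime_iff_prime_int.mp hp.out).dvd_mul.mp h with h | h
    · exact h1 h
    · exact h1' h
  · push_cast; linear_combination (D' : ℚ) * h2 + (D : ℚ) * h2'
  · push_cast; rw [h3, h3']; ring

theorem R2.mul {x y : ℚ} {ξ η : ZMod (p ^ 2)} (hx : R2 p x ξ) (hy : R2 p y η) : R2 p (x * y) (ξ * η) := by
  obtain ⟨N, D, h1, h2, h3⟩ := hx
  obtain ⟨N', D', h1', h2', h3'⟩ := hy
  refine ⟨N * N', D * D', ?_, ?_, ?_⟩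
  · intro h; rcases (Nat.prime_iff_prime_int.mp hp.out).dvd_mul.mp h with h | h
    · exact h1 h
    · exact h1' h
  · push_cast; rw [← h2, ← h2']; ring
  · push_cast; rw [h3, h3']; ring

theorem R2.neg {x : ℚ} {ξ : ZMod (p ^ 2)} (hx : R2 p x ξ) : R2 p (-x) (-ξ) := by
  have := (R2.int (p := p) (-1)).mul hx
  push_cast at this
  simpa using this

theorem R2.sub {x y : ℚ} {ξ η : ZMod (p ^ 2)} (hx : R2 p x ξ) (hy : R2 p y η) : R2 p (x - y) (ξ - η) := by
  have := hx.add hy.neg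
  rwa [← sub_eq_add_neg, ← sub_eq_add_neg] at this

theorem R2.sum {ι : Type*} (s : Finset ι) {f : ι → ℚ} {g : ι → ZMod (p ^ 2)} (h : ∀ i ∈ s, R2 p (f i) (g i)) :
    R2 p (∑ i ∈ s, f i) (∑ i ∈ s, g i) := by
  classical
  induction s using Finset.induction_on with
  | empty => simpa using R2.int (p := p) 0
  | insert a s ha ih =>
    rw [sum_insert ha, sum_insert ha]
    exact (h a (mem_insert_self _ _)).add (ih fun i hi => h i (mem_insert_of_mem hi))

theorem R2.inv {m : ℤ} (hm : ¬ (p : ℤ) ∣ m) {w : ZMod (p ^ 2)} (hw : (m : ZMod (p ^ 2)) * w = 1) (k : ℕ) :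
    R2 p (1 / (m : ℚ) ^ k) (w ^ k) := by
  have hm0 : (m : ℚ) ≠ 0 := by
    intro h
    have : m = 0 := by exact_mod_cast h
    exact hm (this ▸ dvd_zero _)
  refine ⟨1, m ^ k, ?_, ?_, ?_⟩
  · intro h; exact hm ((Nat.prime_iff_prime_int.mp hp.out).dvd_of_dvd_pow h)
  · push_cast; field_simp
  · push_cast; rw [← mul_pow, hw, one_pow]

theorem unit_int {m : ℤ} (hm : ¬ (p : ℤ) ∣ m) : IsUnit (m : ZMod (p ^ 2)) := by
  have h1 : IsCoprime m ((p ^ 2 : ℕ) : ℤ) := by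
    push_cast
    apply IsCoprime.pow_right
    exact ((Nat.prime_iff_prime_int.mp hp.out).coprime_iff_not_dvd.mpr hm).symm
  obtain ⟨a, b, hab⟩ := h1
  refine IsUnit.of_mul_eq_one (a : ZMod (p ^ 2)) ?_
  have h2 := congrArg (Int.cast : ℤ → ZMod (p ^ 2)) hab
  push_cast at h2
  have h3 : ((p : ZMod (p ^ 2))) ^ 2 = 0 := by
    have : ((p ^ 2 : ℕ) : ZMod (p ^ 2)) = 0 := ZMod.natCast_self _
    push_cast at this
    exact this
  linear_combination h2 - (b : ZMod (p ^ 2)) * h3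

theorem unit_nat {k : ℕ} (h0 : 0 < k) (hk : k < p) : IsUnit (k : ZMod (p ^ 2)) := by
  have : IsUnit (((k : ℤ)) : ZMod (p ^ 2)) := unit_int (fun h => by
    have := Nat.le_of_dvd h0 (Int.natCast_dvd_natCast.mp h)
    omega)
  simpa using this

omit hp in
theorem p2_zero : ((p : ZMod (p ^ 2))) ^ 2 = 0 := by
  have : ((p ^ 2 : ℕ) : ZMod (p ^ 2)) = 0 := ZMod.natCast_self _
  push_cast at this
  exact this

theorem R2.of_I {x : ℚ} {ξ : ZMod (p ^ 2)} (hI : I p 2 x) (hx : R2 p x ξ) : ξ = 0 := by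
  obtain ⟨N, D, h1, h2, h3⟩ := hx
  obtain ⟨y, ⟨a, b, hb, rfl⟩, rfl⟩ := hI
  have hb0 : (b : ℚ) ≠ 0 := by
    intro h
    have : b = 0 := by exact_mod_cast h
    exact hb (this ▸ dvd_zero _)
  have h4 : N * b = p ^ 2 * a * D := by
    have : (N : ℚ) * b = p ^ 2 * a * D := by
      rw [← h2]; field_simp
    exact_mod_cast this
  have h5 := congrArg (Int.cast : ℤ → ZMod (p ^ 2)) h4
  push_cast at h5
  rw [p2_zero, h3] at h5
  apply ((unit_int h1).mul (unit_int hb)).mul_left_cancel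
  linear_combination h5

theorem R2.num {x : ℚ} (hx : R2 p x 0) : (p : ℤ) ^ 2 ∣ x.num := by
  obtain ⟨N, D, h1, h2, h3⟩ := hx
  rw [mul_zero] at h3
  have h4 : ((p ^ 2 : ℕ) : ℤ) ∣ N := (ZMod.intCast_zmod_eq_zero_iff_dvd N (p ^ 2)).mp h3
  push_cast at h4
  have h5 : x.num * D = N * x.den := by
    have hd : (x.den : ℚ) ≠ 0 := by exact_mod_cast x.den_nz
    have : (x.num : ℚ) * D = N * x.den := by
      rw [← h2]
      have hx : (x.num : ℚ) = x * x.den := (Rat.mul_den_eq_num x).symm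
      rw [hx]; ring
    exact_mod_cast this
  have h6 : (p : ℤ) ^ 2 ∣ x.num * D := by rw [h5]; exact h4.mul_right _
  have h7 : IsCoprime ((p : ℤ) ^ 2) D :=
    IsCoprime.pow_left ((Nat.prime_iff_prime_int.mp hp.out).coprime_iff_not_dvd.mpr h1)
  exact h7.dvd_of_dvd_mul_right h6

end

/-! ### dual numbers -/

section dual

variable {B : Type} [CommRing B]

/-- `a + b ε` -/
def D (a b : B) : DualNumber B := TrivSqZeroExt.inl a + TrivSqZeroExt.inr b

theorem D_fst (a b : B) : TrivSqZeroExt.fst (D a b) = a := by simp [D]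
theorem D_snd (a b : B) : TrivSqZeroExt.snd (D a b) = b := by simp [D]

theorem D_eta (x : DualNumber B) : x = D (TrivSqZeroExt.fst x) (TrivSqZeroExt.snd x) := by
  apply TrivSqZeroExt.ext
  · rw [D_fst]
  · rw [D_snd]

theorem D_mul (a b c d : B) : D a b * D c d = D (a * c) (a * d + b * c) := by
  apply TrivSqZeroExt.ext
  · rw [TrivSqZeroExt.fst_mul, D_fst, D_fst, D_fst]
  · rw [TrivSqZeroExt.snd_mul, D_fst, D_fst, D_snd, D_snd, D_snd]
    simp only [smul_eq_mul, MulOpposite.smul_eq_mul_unop, MulOpposite.unop_op]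

theorem D_add (a b c d : B) : D a b + D c d = D (a + c) (b + d) := by
  apply TrivSqZeroExt.ext
  · rw [TrivSqZeroExt.fst_add, D_fst, D_fst, D_fst]
  · rw [TrivSqZeroExt.snd_add, D_snd, D_snd, D_snd]

theorem D_sub (a b c d : B) : D a b - D c d = D (a - c) (b - d) := by
  apply TrivSqZeroExt.ext
  · rw [TrivSqZeroExt.fst_sub, D_fst, D_fst, D_fst]
  · rw [TrivSqZeroExt.snd_sub, D_snd, D_snd, D_snd]

theorem D_one : (1 : DualNumber B) = D 1 0 := by
  apply TrivSqZeroExt.ext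
  · rw [D_fst]; rfl
  · rw [D_snd]; rfl

theorem D_nat (n : ℕ) : (n : DualNumber B) = D (n : B) 0 := by
  apply TrivSqZeroExt.ext
  · rw [D_fst]; rfl
  · rw [D_snd]; rfl

theorem D_ofNat (n : ℕ) [n.AtLeastTwo] : (OfNat.ofNat n : DualNumber B) = D (OfNat.ofNat n : B) 0 := by
  have := D_nat (B := B) (OfNat.ofNat n)
  rwa [Nat.cast_ofNat, Nat.cast_ofNat] at this

theorem D_inj {a b c d : B} (h : D a b = D c d) : a = c ∧ b = d := by
  constructor
  · have := congrArg TrivSqZeroExt.fst h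
    rwa [D_fst, D_fst] at this
  · have := congrArg TrivSqZeroExt.snd h
    rwa [D_snd, D_snd] at this

theorem D_pow (w t : B) (k : ℕ) : (D w (w * t)) ^ k = D (w ^ k) (w ^ k * (k * t)) := by
  induction k with
  | zero => rw [pow_zero, pow_zero, D_one]; congr 1; push_cast; ring
  | succ k ih =>
    rw [pow_succ, ih, D_mul, pow_succ]
    congr 1
    push_cast
    ring

theorem D_sum {ι : Type*} (s : Finset ι) (f g : ι → B) : ∑ i ∈ s, D (f i) (g i) = D (∑ i ∈ s, f i) (∑ i ∈ s, g i) := by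
  classical
  induction s using Finset.induction_on with
  | empty =>
    rw [sum_empty, sum_empty, sum_empty]
    apply TrivSqZeroExt.ext
    · rw [D_fst]; rfl
    · rw [D_snd]; rfl
  | insert a s ha ih => rw [sum_insert ha, sum_insert ha, sum_insert ha, ih, D_add]

end dual

/-! ### the relation over dual numbers -/

section core

variable {p : ℕ} [hp : Fact p.Prime] {n : ℕ}

/-- reduction `ZMod (p^3) → ZMod (p^2)` -/
noncomputable def rd (p : ℕ) : ZMod (p ^ 3) →+* ZMod (p ^ 2) := ZMod.castHom (pow_dvd_pow p (by norm_num)) (ZMod (p ^ 2))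

noncomputable def ph (p : ℕ) : ZMod (p ^ 3) →+* DualNumber (ZMod (p ^ 2)) := (TrivSqZeroExt.inlHom (ZMod (p ^ 2)) (ZMod (p ^ 2))).comp (rd p)

omit hp in
theorem ph_apply (a : ZMod (p ^ 3)) : ph p a = D (rd p a) 0 := by
  apply TrivSqZeroExt.ext
  · rw [D_fst]; rfl
  · rw [D_snd]; rfl

/-- weighted block sums -/
noncomputable def W (p : ℕ) (y : ZMod (p ^ 2)) (k : ℕ) : ZMod (p ^ 2) :=
  (y ^ (p - 1)) ^ k * ∑ j ∈ range p, (5 * ((p : ZMod (p ^ 2)) * k + j) + 1) * (rd p (Fc p j k) * y ^ j)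

theorem sum_D (c : ℕ → ZMod (p ^ 3)) (w t : ZMod (p ^ 2)) :
    ∑ j ∈ range p, ph p (c j) * (D w (w * t)) ^ j = D (∑ j ∈ range p, rd p (c j) * w ^ j) (t * ∑ j ∈ range p, (j : ZMod (p ^ 2)) * (rd p (c j) * w ^ j)) := by
  rw [mul_sum, ← D_sum]
  refine sum_congr rfl fun j _ => ?_
  rw [D_pow, ph_apply, D_mul]
  congr 1
  ring

theorem fam_D (F : ℕ → ℕ → ZMod (p ^ 3)) (e y t : ZMod (p ^ 2)) (k : ℕ) :
    fam p (fun j κ => ph p (F j κ)) (D e (e * ((p : ZMod (p ^ 2)) * t))) (D y (y * t)) k =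
      D (e ^ k * ∑ j ∈ range p, rd p (F j k) * y ^ j) (t * (e ^ k * ∑ j ∈ range p, ((p : ZMod (p ^ 2)) * k + j) * (rd p (F j k) * y ^ j))) := by
  unfold fam
  rw [sum_D, D_pow, D_mul]
  congr 1
  have : ∑ j ∈ range p, ((p : ZMod (p ^ 2)) * k + j) * (rd p (F j k) * y ^ j) =
      p * k * ∑ j ∈ range p, (rd p (F j k) * y ^ j) + ∑ j ∈ range p, (j : ZMod (p ^ 2)) * (rd p (F j k) * y ^ j) := by
    rw [mul_sum, ← sum_add_distrib]
    exact sum_congr rfl fun j _ => by ring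
  rw [this]
  ring

theorem core (hR : S_R) (h53 : 53 ≤ p) (hn : p = 2 * n + 1) {x i : ZMod (p ^ 2)} (hx : 24 * x = 1) (hi : 10 * i = 1) :
    ∃ χ : ZMod (p ^ 2), χ ^ 2 = 1 ∧ (∃ y : ZMod (p ^ 2), χ = 10 ^ n * (1 + (p : ZMod (p ^ 2)) * y)) ∧
      (-200) * (χ * ∑ j ∈ range p, (506 * (j : ZMod (p ^ 2)) + 31) * (rd p (v1 j) * (x * (1 - 27 * x) ^ 3 * i ^ 3) ^ j)) =
        40 * (-200 * W p (x * (1 - 27 * x)) 0 + 9 * (W p (x * (1 - 27 * x)) 1 - W p (x * (1 - 27 * x)) 0)) := by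
  have hp2 := p2_zero (p := p)
  have u2 : IsUnit (2 : ZMod (p ^ 2)) := by have := unit_nat (p := p) (k := 2) (by norm_num) (by omega); simpa using this
  have u5 : IsUnit (5 : ZMod (p ^ 2)) := by have := unit_nat (p := p) (k := 5) (by norm_num) (by omega); simpa using this
  have u11 : IsUnit (11 : ZMod (p ^ 2)) := by have := unit_nat (p := p) (k := 11) (by norm_num) (by omega); simpa using this
  have u23 : IsUnit (23 : ZMod (p ^ 2)) := by have := unit_nat (p := p) (k := 23) (by norm_num) (by omega); simpa using this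
  have ux : IsUnit x := IsUnit.of_mul_eq_one 24 (by linear_combination hx)
  have p1 : p - 1 + 1 = p := Nat.sub_add_cancel hp.out.one_le
  -- Fermat
  obtain ⟨μ, hμ⟩ : ∃ μ : ZMod (p ^ 2), x ^ (p - 1) = 1 + (p : ZMod (p ^ 2)) * μ := by
    have h24 : ((24 : ZMod (p ^ 2))) ^ (p - 1) * x ^ (p - 1) = 1 := by rw [← mul_pow, hx, one_pow]
    have h1 : (p : ℤ) ∣ 24 ^ (p - 1) - 1 := by
      have h2 : ((24 : ℤ) : ZMod p) ≠ 0 := by
        intro h0
        have h3 := (ZMod.intCast_zmod_eq_zero_iff_dvd 24 p).mp h0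
        have h4 := Int.le_of_dvd (by norm_num) h3
        omega
      have h3 := ZMod.pow_card_sub_one_eq_one h2
      apply (ZMod.intCast_zmod_eq_zero_iff_dvd _ p).mp
      push_cast at h3 ⊢
      rw [h3, sub_self]
    obtain ⟨q, hq⟩ := h1
    refine ⟨-q * x ^ (p - 1), ?_⟩
    have h2 := congrArg (Int.cast : ℤ → ZMod (p ^ 2)) hq
    push_cast at h2
    linear_combination h24 - x ^ (p - 1) * h2
  obtain ⟨m, hm⟩ : ∃ m, m = 1 - 27 * x := ⟨_, rfl⟩
  have hm8 : m * (-8) = 1 := by rw [hm]; linear_combination 9 * hx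
  -- the data
  have e1 : (1 : DualNumber (ZMod (p ^ 2))) = D 1 0 := D_one
  have e27 : (27 : DualNumber (ZMod (p ^ 2))) = D 27 0 := D_ofNat 27
  have e216 : (216 : DualNumber (ZMod (p ^ 2))) = D 216 0 := D_ofNat 216
  have e54 : (54 : DualNumber (ZMod (p ^ 2))) = D 54 0 := D_ofNat 54
  have e540 : (540 : DualNumber (ZMod (p ^ 2))) = D 540 0 := D_ofNat 540
  have e5832 : (5832 : DualNumber (ZMod (p ^ 2))) = D 5832 0 := D_ofNat 5832
  have e108 : (108 : DualNumber (ZMod (p ^ 2))) = D 108 0 := D_ofNat 108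
  have ep : (p : DualNumber (ZMod (p ^ 2))) = D (p : ZMod (p ^ 2)) 0 := D_nat p
  have hm0 : 1 - 27 * D x (x * 1) = D m (m * 9) := by
    rw [e1, e27, D_mul, D_sub]
    congr 1
    · rw [hm]
    · rw [hm]; linear_combination (9 : ZMod (p ^ 2)) * hx
  have hm1 : 1 - 27 * D x 0 = D m 0 := by
    rw [e1, e27, D_mul, D_sub]
    congr 1
    · rw [hm]
    · ring
  have h216 : 1 + 216 * D x (x * 1) = D 10 9 := by
    rw [e1, e216, D_mul, D_add]
    congr 1
    · linear_combination 9 * hx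
    · linear_combination 9 * hx
  have h216' : 1 + 216 * D x 0 = D 10 0 := by
    rw [e1, e216, D_mul, D_add]
    congr 1
    · linear_combination 9 * hx
    · ring
  have hE : 1 - 540 * D x 0 - 5832 * D x 0 ^ 2 = D (1 - 540 * x - 5832 * x ^ 2) 0 := by
    rw [e1, e540, e5832, pow_two (D x 0), D_mul, D_mul, D_mul, D_sub, D_sub]
    congr 1
    · ring
    · ring
  have h54 : 1 - 54 * D x 0 = D (1 - 54 * x) 0 := by
    rw [e1, e54, D_mul, D_sub]
    congr 1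
    ring
  have uD : ∀ a b : ZMod (p ^ 2), a * b = 1 → IsUnit (D a 0) := fun a b hab => by
    refine IsUnit.of_mul_eq_one (D b 0) ?_
    rw [D_mul, hab, e1]
    congr 1
    ring
  have uD' : ∀ a : ZMod (p ^ 2), IsUnit a → IsUnit (D a 0) := fun a ha => by
    obtain ⟨b, hb⟩ := ha.exists_right_inv
    exact uD a b hb
  obtain ⟨χ, hχ, ⟨y, hy⟩, rel⟩ := hR (DualNumber (ZMod (p ^ 2))) p n (ph p) (D x (x * 1)) (D x 0) (D (x ^ (p - 1)) (x ^ (p - 1) * ((p : ZMod (p ^ 2)) * 1)))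
    (D μ (1 + (p : ZMod (p ^ 2)) * μ)) (D i (i * (-9 * i))) (D (-8) 0) h53 hn
    (by rw [ep, pow_two (D (p : ZMod (p ^ 2)) 0), D_mul]
        apply TrivSqZeroExt.ext
        · rw [D_fst, ← pow_two, hp2]; rfl
        · rw [D_snd]; show _ = (0 : ZMod (p ^ 2)); ring)
    (by rw [D_pow, D_mul]
        have e : x ^ p = x * x ^ (p - 1) := by rw [← pow_succ', p1]
        rw [e]
        congr 1
        ring)
    (by rw [e1, ep, D_mul, D_add, hμ]
        congr 1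
        ring)
    (uD' x ux)
    (by rw [h216, D_mul, e1]
        congr 1
        linear_combination (-9 * i) * hi)
    (by rw [hm1, D_mul, hm8, e1]
        congr 1
        ring)
    (by rw [h54]
        apply uD'
        apply isUnit_of_mul_isUnit_left (y := 4)
        have : (1 - 54 * x) * 4 = -5 := by linear_combination (-9 : ZMod (p ^ 2)) * hx
        rw [this]; exact u5.neg)
    (by rw [hE]
        apply uD'
        apply isUnit_of_mul_isUnit_left (y := 8)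
        have : (1 - 540 * x - 5832 * x ^ 2) * 8 = -(11 * 23) := by
          linear_combination (-180 - 81 * (24 * x + 1) : ZMod (p ^ 2)) * hx
        rw [this]; exact (u11.mul u23).neg)
  have hw : D x (x * 1) * D m (m * 9) ^ 3 * D i (i * (-9 * i)) ^ 3 = D (x * m ^ 3 * i ^ 3) (x * m ^ 3 * i ^ 3 * (253 * i)) := by
    rw [D_pow, D_pow, D_mul, D_mul]
    congr 1
    push_cast
    linear_combination (-28 * x * m ^ 3 * i ^ 3) * hi
  have hyy : D x (x * 1) * D m (m * 9) = D (x * m) (x * m * 10) := by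
    rw [D_mul]
    congr 1
    ring
  have mp : m ^ p = m ^ (p - 1) * m := by rw [← pow_succ, p1]
  have hee : D (x ^ (p - 1)) (x ^ (p - 1) * ((p : ZMod (p ^ 2)) * 1)) * D m (m * 9) ^ p * D (-8) 0 = D ((x * m) ^ (p - 1)) ((x * m) ^ (p - 1) * ((p : ZMod (p ^ 2)) * 10)) := by
    rw [D_pow, D_mul, D_mul, mp, mul_pow]
    congr 1
    · linear_combination (x ^ (p - 1) * m ^ (p - 1)) * hm8
    · linear_combination (10 * p * x ^ (p - 1) * m ^ (p - 1)) * hm8
  have hcD : (1 - 54 * D x 0) * (1 + 216 * D x 0) = D ((1 - 54 * x) * 10) 0 := by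
    rw [h54, h216', D_mul]
    congr 1
    ring
  have hdD : 108 * D x 0 * (1 - 27 * D x 0) = D (108 * x * m) 0 := by
    rw [hm1, e108, D_mul, D_mul]
    congr 1
    ring
  rw [hcD, hdD, hm0, hw, hyy, hee, sum_D, fam_D, fam_D] at rel
  rw [h216, h216'] at hχ
  rw [h216] at hy
  have hy0 := congrArg TrivSqZeroExt.fst hy
  rw [TrivSqZeroExt.fst_mul, TrivSqZeroExt.fst_pow, D_fst, TrivSqZeroExt.fst_add, TrivSqZeroExt.fst_mul, TrivSqZeroExt.fst_one,
    TrivSqZeroExt.fst_natCast] at hy0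
  clear hy
  obtain ⟨χ0, χ1, hχe⟩ : ∃ a b, χ = D a b := ⟨_, _, D_eta χ⟩
  rw [hχe] at hχ rel hy0
  rw [D_fst] at hy0
  rw [pow_two (D χ0 χ1), D_mul, D_mul] at hχ
  obtain ⟨k1, k2⟩ := D_inj hχ
  rw [D_mul, D_mul, D_mul, D_sub, D_mul, D_sub] at rel
  obtain ⟨r1, r2⟩ := D_inj rel
  have u10 : IsUnit (10 : ZMod (p ^ 2)) := IsUnit.of_mul_eq_one i hi
  have k3 : χ0 ^ 2 = 1 := by
    apply u10.mul_left_cancel
    linear_combination k1
  have k4 : 20 * χ1 + 9 * χ0 = 0 := by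
    linear_combination χ0 * k2 - (9 * χ0 + 20 * χ1) * k3
  refine ⟨χ0, k3, ⟨_, hy0⟩, ?_⟩
  have hc : 16 * ((1 - 54 * x) * 10) = -200 := by linear_combination (-360 : ZMod (p ^ 2)) * hx
  have hd : 16 * (108 * x * m) = -9 := by linear_combination (72 * m) * hx - 9 * hm8
  rw [← hm]
  have hT : ∑ j ∈ range p, (506 * (j : ZMod (p ^ 2)) + 31) * (rd p (v1 j) * (x * m ^ 3 * i ^ 3) ^ j) =
      506 * ∑ j ∈ range p, (j : ZMod (p ^ 2)) * (rd p (v1 j) * (x * m ^ 3 * i ^ 3) ^ j) +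
      31 * ∑ j ∈ range p, (rd p (v1 j) * (x * m ^ 3 * i ^ 3) ^ j) := by
    rw [mul_sum, mul_sum, ← sum_add_distrib]
    exact sum_congr rfl fun j _ => by ring
  have hW : ∀ k : ℕ, W p (x * m) k = 5 * (((x * m) ^ (p - 1)) ^ k * ∑ j ∈ range p, ((p : ZMod (p ^ 2)) * k + j) * (rd p (Fc p j k) * (x * m) ^ j)) +
      ((x * m) ^ (p - 1)) ^ k * ∑ j ∈ range p, (rd p (Fc p j k) * (x * m) ^ j) := fun k => by
    unfold W
    have : ∑ j ∈ range p, (5 * ((p : ZMod (p ^ 2)) * k + j) + 1) * (rd p (Fc p j k) * (x * m) ^ j) =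
        5 * ∑ j ∈ range p, ((p : ZMod (p ^ 2)) * k + j) * (rd p (Fc p j k) * (x * m) ^ j) + ∑ j ∈ range p, (rd p (Fc p j k) * (x * m) ^ j) := by
      rw [mul_sum, ← sum_add_distrib]
      exact sum_congr rfl fun j _ => by ring
    rw [this]; ring
  rw [hT, hW 0, hW 1]
  generalize (∑ j ∈ range p, (j : ZMod (p ^ 2)) * (rd p (v1 j) * (x * m ^ 3 * i ^ 3) ^ j)) = T' at r1 r2 ⊢
  generalize (∑ j ∈ range p, (rd p (v1 j) * (x * m ^ 3 * i ^ 3) ^ j)) = T0 at r1 r2 ⊢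
  generalize ((x * m) ^ (p - 1)) ^ 0 * ∑ j ∈ range p, ((p : ZMod (p ^ 2)) * (0 : ℕ) + j) * (rd p (Fc p j 0) * (x * m) ^ j) = S0 at r1 r2 ⊢
  generalize ((x * m) ^ (p - 1)) ^ 1 * ∑ j ∈ range p, ((p : ZMod (p ^ 2)) * (1 : ℕ) + j) * (rd p (Fc p j 1) * (x * m) ^ j) = S1 at r1 r2 ⊢
  generalize ((x * m) ^ (p - 1)) ^ 0 * ∑ j ∈ range p, (rd p (Fc p j 0) * (x * m) ^ j) = G0 at r1 r2 ⊢
  generalize ((x * m) ^ (p - 1)) ^ 1 * ∑ j ∈ range p, (rd p (Fc p j 1) * (x * m) ^ j) = G1 at r1 r2 ⊢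
  linear_combination 320 * r2 + 640 * r1 - (20 * (χ0 * (253 * i * T') + χ1 * T0 - 10 * S0) + 40 * (χ0 * T0 - G0)) * hc -
    (200 * (S1 - S0) + 40 * (G1 - G0)) * hd + (101200 * χ0 * T') * hi + (200 * T0) * k4

end core

/-! ### evaluation -/

section eval

variable {p : ℕ} [hp : Fact p.Prime] {n : ℕ}

/-- `∑_{k<N} (5k+1) v3 k y^k` -/
def SZ (p : ℕ) (y : ZMod (p ^ 2)) (N : ℕ) : ZMod (p ^ 2) := ∑ k ∈ range N, (5 * (k : ZMod (p ^ 2)) + 1) * ((v3 k : ZMod (p ^ 2)) * y ^ k)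

theorem Fc_rd (hF : S_Fc) (h5 : 5 ≤ p) (κ j : ℕ) (hj : j < p) : (v3 (p * κ + j) : ZMod (p ^ 2)) = v3 κ * rd p (Fc p j κ) := by
  have := congrArg (rd p) ((hF p h5).2 κ j hj)
  rwa [map_mul, map_natCast, map_natCast] at this

theorem W_zero (hF : S_Fc) (h5 : 5 ≤ p) (y : ZMod (p ^ 2)) : W p y 0 = SZ p y p := by
  unfold W SZ
  rw [pow_zero, one_mul]
  refine sum_congr rfl fun j hj => ?_
  have h := Fc_rd hF h5 0 j (mem_range.mp hj)
  rw [mul_zero, zero_add] at h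
  have h0 : (v3 0 : ZMod (p ^ 2)) = 1 := by simp [v3]
  rw [h0, one_mul] at h
  rw [← h]
  push_cast
  ring

theorem W_one (hF : S_Fc) (h5 : 5 ≤ p) (y : ZMod (p ^ 2)) : 12 * y * W p y 1 = SZ p y (2 * p) - SZ p y p := by
  unfold W SZ
  rw [two_mul, sum_range_add, add_sub_cancel_left, pow_one, mul_sum, mul_sum]
  refine sum_congr rfl fun j hj => ?_
  have h := Fc_rd hF h5 1 j (mem_range.mp hj)
  have h0 : (v3 1 : ZMod (p ^ 2)) = 12 := by
    have : v3 1 = 12 := by decide +kernel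
    rw [this]; norm_num
  rw [mul_one, h0] at h
  rw [h]
  have hy : y ^ (p + j) = y * y ^ (p - 1) * y ^ j := by
    rw [pow_add, ← pow_succ', Nat.sub_add_cancel hp.out.one_le]
  rw [hy]
  push_cast
  ring

theorem ndvd (h53 : 53 ≤ p) {m : ℤ} (hm : m ∣ 30 ^ 15) : ¬ (p : ℤ) ∣ m := by
  intro h
  have h1 : (p : ℤ) ∣ ((30 ^ 15 : ℕ) : ℤ) := by push_cast; exact h.trans hm
  have h2 := hp.out.dvd_of_dvd_pow (Int.natCast_dvd_natCast.mp h1)
  have h3 := Nat.le_of_dvd (by norm_num) h2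
  omega

theorem R2_SV (h53 : 53 ≤ p) {y : ZMod (p ^ 2)} (hy : (-192) * y = 1) (N : ℕ) : R2 p (SV 5 1 (-1 / 192) N) (SZ p y N) := by
  unfold SV SZ
  refine R2.sum _ fun k _ => ?_
  have e1 : (5 * (k : ℚ) + 1) * ((Nat.centralBinom k : ℚ) ^ 2 * ((3 * k).choose k : ℚ)) * (-1 / 192) ^ k =
      ((5 * k + 1 : ℕ) : ℚ) * ((v3 k : ℚ) * (1 / ((-192 : ℤ) : ℚ) ^ k)) := by
    unfold v3
    have : (-1 / 192 : ℚ) ^ k = 1 / ((-192 : ℤ) : ℚ) ^ k := by
      rw [one_div, ← inv_pow]; norm_num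
    rw [this]
    push_cast
    ring
  rw [e1]
  have h := (R2.nat (p := p) (5 * k + 1)).mul ((R2.nat (p := p) (v3 k)).mul
    (R2.inv (p := p) (m := -192) (ndvd h53 (by norm_num)) (w := y) (by push_cast; exact hy) k))
  push_cast at h ⊢
  exact h

theorem R2_T6 (h53 : 53 ≤ p) {w : ZMod (p ^ 2)} (hw : (-12288000) * w = 1) : R2 p (T6 506 31 (-12288000) p)
    (∑ j ∈ range p, (506 * (j : ZMod (p ^ 2)) + 31) * (rd p (v1 j) * w ^ j)) := by
  unfold T6
  refine R2.sum _ fun k _ => ?_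
  have e1 : (((506 : ℤ) : ℚ) * k + ((31 : ℤ) : ℚ)) * (c k : ℚ) / ((-12288000 : ℤ) : ℚ) ^ k =
      ((506 * k + 31 : ℕ) : ℚ) * ((v1 k : ℚ) * (1 / ((-12288000 : ℤ) : ℚ) ^ k)) := by
    have : (c k : ℚ) = (v1 k : ℚ) := by unfold c v1; push_cast; ring
    rw [this]
    push_cast
    ring
  rw [e1, map_natCast]
  have h := (R2.nat (p := p) (506 * k + 31)).mul ((R2.nat (p := p) (v1 k)).mul
    (R2.inv (p := p) (m := -12288000) (ndvd h53 (by norm_num)) (w := w) (by push_cast; exact hw) k))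
  push_cast at h ⊢
  exact h

theorem SZ_vals (hf : S_f) (h53 : 53 ≤ p) {y : ZMod (p ^ 2)} (hy : (-192) * y = 1) {s : ℤ} (hs : s = if p % 3 = 1 then 1 else -1) :
    SZ p y p = s * p ∧ 8 * SZ p y (2 * p) = 5 * (s * p) := by
  obtain ⟨h1, h2⟩ := hf p (by omega)
  have hsQ : (if p % 3 = 1 then (1 : ℚ) else -1) = (s : ℚ) := by
    rw [hs]; split_ifs <;> norm_num
  rw [hsQ] at h1 h2
  have k1 := R2.of_I h1 ((R2_SV h53 hy p).sub ((R2.int s).mul (R2.nat p)))
  have h8 : I p 2 (8 * (SV 5 1 (-1 / 192) (2 * p) - 5 / 8 * s * p)) := I.mulL (by exact_mod_cast nat_mem (p := p) 8) h2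
  have e : 8 * (SV 5 1 (-1 / 192) (2 * p) - 5 / 8 * s * p) = ((8 : ℕ) : ℚ) * SV 5 1 (-1 / 192) (2 * p) - ((5 : ℕ) : ℚ) * (s * (p : ℕ)) := by
    push_cast; ring
  rw [e] at h8
  have k2 := R2.of_I h8 (((R2.nat 8).mul (R2_SV h53 hy (2 * p))).sub ((R2.nat 5).mul ((R2.int s).mul (R2.nat p))))
  push_cast at k1 k2
  exact ⟨by linear_combination k1, by linear_combination k2⟩

theorem p_leg (hn : p = 2 * n + 1) (a : ℤ) : (p : ZMod (p ^ 2)) * (a : ZMod (p ^ 2)) ^ n = p * ((legendreSym p a : ℤ) : ZMod (p ^ 2)) := by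
  have h1 := legendreSym.eq_pow p a
  rw [show p / 2 = n by omega] at h1
  have h2 : (p : ℤ) ∣ a ^ n - legendreSym p a := by
    apply (ZMod.intCast_zmod_eq_zero_iff_dvd _ p).mp
    push_cast
    rw [h1, sub_self]
  obtain ⟨q, hq⟩ := h2
  have h3 := congrArg (Int.cast : ℤ → ZMod (p ^ 2)) hq
  push_cast at h3
  linear_combination (p : ZMod (p ^ 2)) * h3 + (q : ZMod (p ^ 2)) * p2_zero (p := p)

theorem sixth (hf : S_f) (hR : S_R) (hF : S_Fc) : ∀ (p : ℕ) [Fact p.Prime], 53 ≤ p →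
    Pool.Agent.H547.C9.Cong p (T6 506 31 (-12288000) p) (31 * p * legendreSym p (-30)) := by
  intro p hp h53
  obtain ⟨n, hn⟩ : ∃ n, p = 2 * n + 1 := by
    have := hp.out.odd_of_ne_two (by omega)
    obtain ⟨n, hn⟩ := this
    exact ⟨n, hn⟩
  have u2 : IsUnit (2 : ZMod (p ^ 2)) := by have := unit_nat (p := p) (k := 2) (by norm_num) (by omega); simpa using this
  have u3 : IsUnit (3 : ZMod (p ^ 2)) := by have := unit_nat (p := p) (k := 3) (by norm_num) (by omega); simpa using this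
  have u5 : IsUnit (5 : ZMod (p ^ 2)) := by have := unit_nat (p := p) (k := 5) (by norm_num) (by omega); simpa using this
  obtain ⟨x, hx⟩ : ∃ x : ZMod (p ^ 2), 24 * x = 1 := by
    have : IsUnit (24 : ZMod (p ^ 2)) := by
      have e : (24 : ZMod (p ^ 2)) = 2 ^ 3 * 3 := by norm_num
      rw [e]; exact (u2.pow 3).mul u3
    exact this.exists_right_inv
  obtain ⟨i, hi⟩ : ∃ x : ZMod (p ^ 2), 10 * x = 1 := by
    have : IsUnit (10 : ZMod (p ^ 2)) := by
      have e : (10 : ZMod (p ^ 2)) = 2 * 5 := by norm_num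
      rw [e]; exact u2.mul u5
    exact this.exists_right_inv
  obtain ⟨χ, hχ2, ⟨y0, hy0⟩, key⟩ := core hR h53 hn hx hi
  obtain ⟨m, hm⟩ : ∃ m, m = 1 - 27 * x := ⟨_, rfl⟩
  have hm8 : m * (-8) = 1 := by rw [hm]; linear_combination 9 * hx
  rw [← hm] at key
  have hy : (-192) * (x * m) = 1 := by linear_combination (m * (-8)) * hx + hm8
  have hw : (-12288000) * (x * m ^ 3 * i ^ 3) = 1 := by
    have h1 : (m * (-8)) ^ 3 = 1 := by rw [hm8, one_pow]
    have h2 : (10 * i) ^ 3 = 1 := by rw [hi, one_pow]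
    linear_combination ((m * (-8)) ^ 3 * (10 * i) ^ 3) * hx + (10 * i) ^ 3 * h1 + h2
  obtain ⟨s, hs⟩ : ∃ s : ℤ, s = if p % 3 = 1 then 1 else -1 := ⟨_, rfl⟩
  obtain ⟨v0, v2⟩ := SZ_vals hf h53 hy hs
  have w0 := W_zero hF (by omega) (x * m)
  have w1 := W_one hF (by omega) (x * m)
  have hW0 : W p (x * m) 0 = s * p := by rw [w0, v0]
  have hW1 : W p (x * m) 1 = 6 * (s * p) := by
    linear_combination (-(W p (x * m) 1)) * hy - 16 * w1 - 2 * v2 + 16 * v0
  rw [hW0, hW1] at key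
  set T := ∑ j ∈ range p, (506 * (j : ZMod (p ^ 2)) + 31) * (rd p (v1 j) * (x * m ^ 3 * i ^ 3) ^ j) with hT
  have hT1 : χ * T = 31 * (s * p) := by
    have u200 : IsUnit (-200 : ZMod (p ^ 2)) := by
      have e : (-200 : ZMod (p ^ 2)) = -(2 ^ 3 * 5 ^ 2) := by norm_num
      rw [e]; exact ((u2.pow 3).mul (u5.pow 2)).neg
    apply u200.mul_left_cancel
    linear_combination key
  have hpχ : (p : ZMod (p ^ 2)) * χ = p * ((legendreSym p 10 : ℤ) : ZMod (p ^ 2)) := by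
    have h1 := p_leg hn 10
    push_cast at h1
    rw [← h1, hy0]
    linear_combination (10 ^ n * y0) * p2_zero (p := p)
  have hT2 : T = 31 * p * ((legendreSym p (-30) : ℤ) : ZMod (p ^ 2)) := by
    have h30 : legendreSym p (-30) = legendreSym p 10 * s := by
      have e : (-30 : ℤ) = 10 * (-3) := by norm_num
      rw [e, legendreSym.mul, legm3 (by omega) (by omega), hs]
    rw [h30]
    push_cast
    linear_combination χ * hT1 - T * hχ2 + (31 * s) * hpχ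
  apply R2.num
  have h1 := (R2_T6 h53 hw).sub ((R2.nat (p := p) (31 * p)).mul (R2.int (p := p) (legendreSym p (-30))))
  rw [← hT, hT2] at h1
  push_cast at h1
  rwa [sub_self] at h1

end eval

end Pool.Agent.H415.C9F6
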